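import Mathlib

/-! The family of Kazhdan subsets of `ℤ` is Borel. -/

namespace Pool.Agent.Results.MP_6f1842_lc.Borel

open Set Filter Topology ComplexConjugate
open Finsupp (single linearCombination)

/-- Kazhdan subsets of `ℤ` -/
def Kazhdan (Q : Set ℤ) : Prop :=
  ∃ ε > (0 : ℝ), ∀ (H : Type) [NormedAddCommGroup H] [InnerProductSpace ℂ H] [CompleteSpace H]
    (U : H ≃ₗᵢ[ℂ] H) (x : H), ‖x‖ = 1 → ⨆ n : Q, ‖(U ^ (n : ℤ)) x - x‖ < ε → ∃ y ≠ 0, U y = y

noncomputable def B (φ : ℤ → ℂ) (c d : ℤ →₀ ℂ) : ℂ :=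
  c.sum fun m a => conj a * d.sum fun n b => b * φ (n - m)

theorem B_cont (c d : ℤ →₀ ℂ) : Continuous fun φ => B φ c d := by
  unfold B Finsupp.sum
  fun_prop

def P : Set (ℤ → ℂ) := {φ | φ 0 = 1 ∧ (∀ c d, conj (B φ d c) = B φ c d) ∧ ∀ c, 0 ≤ (B φ c c).re} ∩
  univ.pi fun _ => Metric.closedBall 0 1

theorem P_compact : IsCompact P := by
  refine (isCompact_univ_pi fun _ => isCompact_closedBall _ _).inter_left ?_
  simp only [ofPred_and, ofPred_forall]
  exact (isClosed_eq (continuous_apply 0) continuous_const).inter ((isClosed_iInter fun c =>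
    isClosed_iInter fun d => isClosed_eq (Complex.continuous_conj.comp (B_cont _ _))
      (B_cont _ _)).inter (isClosed_iInter fun c => isClosed_le continuous_const
        (Complex.continuous_re.comp (B_cont _ _))))

section
variable {H : Type} [NormedAddCommGroup H] [InnerProductSpace ℂ H]

theorem L1 {v : ℤ → H} {φ : ℤ → ℂ} (h : ∀ m n, inner ℂ (v m) (v n) = φ (n - m)) (c d : ℤ →₀ ℂ) :
    inner ℂ (linearCombination ℂ v c) (linearCombination ℂ v d) = B φ c d := by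
  simp only [Finsupp.linearCombination_apply, Finsupp.sum_inner, inner_smul_left]
  simp only [Finsupp.inner_sum, inner_smul_right, h, B]

theorem L2 {v : ℤ → H} {φ : ℤ → ℂ} (h : ∀ m n, inner ℂ (v m) (v n) = φ (n - m)) (c : ℤ →₀ ℂ) :
    ‖linearCombination ℂ v c‖ = √(B φ c c).re := by
  rw [← L1 h, norm_eq_sqrt_re_inner (𝕜 := ℂ)]
  rfl

theorem orb (U : H ≃ₗᵢ[ℂ] H) {v : ℤ → H} (h : ∀ n, U (v n) = v (n + 1)) (n : ℤ) :
    (U ^ n) (v 0) = v n := by
  induction n using Int.induction_on with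
  | zero => rfl
  | succ n ih => rw [add_comm, zpow_one_add, add_comm, ← h, ← ih]; rfl
  | pred n ih =>
    refine U.injective ?_
    rw [h, sub_add_cancel, ← ih]
    exact DFunLike.congr_fun (by group : U * U ^ (-(n : ℤ) - 1) = U ^ (-(n : ℤ))) _

theorem ker (U : H ≃ₗᵢ[ℂ] H) (x : H) (m n : ℤ) :
    inner ℂ ((U ^ m) x) ((U ^ n) x) = inner ℂ x ((U ^ (n - m)) x) := by
  rw [← (U ^ m).inner_map_map x]
  exact congrArg _ (DFunLike.congr_fun (by group : U ^ n = U ^ m * U ^ (n - m)) _)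

end

def Gns (_ : ℤ → ℂ) : Type := ℤ →₀ ℂ

noncomputable instance (φ) : AddCommGroup (Gns φ) := inferInstanceAs (AddCommGroup (ℤ →₀ ℂ))
noncomputable instance (φ) : Module ℂ (Gns φ) := inferInstanceAs (Module ℂ (ℤ →₀ ℂ))

theorem hilb {G : Type} [SeminormedAddCommGroup G] [InnerProductSpace ℂ G]
    (T0 : (ℤ →₀ ℂ) →ₗ[ℂ] G) (h : Function.Surjective T0) :
    ∃ (H : Type) (_ : NormedAddCommGroup H) (_ : InnerProductSpace ℂ H) (_ : CompleteSpace H)
      (T : (ℤ →₀ ℂ) →ₗ[ℂ] H), DenseRange T ∧ ∀ f g, inner ℂ (T f) (T g) = inner ℂ (T0 f) (T0 g) :=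
  ⟨UniformSpace.Completion G, inferInstance, inferInstance, inferInstance,
    UniformSpace.Completion.toComplL.toLinearMap.comp T0,
    UniformSpace.Completion.denseRange_coe.comp h.denseRange (UniformSpace.Completion.continuous_coe _),
    fun f g => UniformSpace.Completion.inner_coe (𝕜 := ℂ) (T0 f) (T0 g)⟩

theorem gns {φ : ℤ → ℂ} (h : φ ∈ P) :
    ∃ (H : Type) (_ : NormedAddCommGroup H) (_ : InnerProductSpace ℂ H) (_ : CompleteSpace H)
      (U : H ≃ₗᵢ[ℂ] H) (x : H), ∀ m n : ℤ, inner ℂ ((U ^ m) x) ((U ^ n) x) = φ (n - m) := by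
  let core : PreInnerProductSpace.Core ℂ (Gns φ) :=
    { inner := B φ
      conj_inner_symm := h.1.2.1
      re_inner_nonneg := h.1.2.2
      add_left := fun (f g k : ℤ →₀ ℂ) => Finsupp.sum_add_index' (by simp) (by simp [add_mul])
      smul_left := fun (f g : ℤ →₀ ℂ) r => by
        change B φ (r • f) g = conj r * B φ f g
        unfold B
        rw [Finsupp.sum_smul_index' (by simp), Finsupp.mul_sum]
        simp [mul_assoc] }
  let _ : SeminormedAddCommGroup (Gns φ) :=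
    InnerProductSpace.Core.toSeminormedAddCommGroup (c := core)
  let _ : InnerProductSpace ℂ (Gns φ) := InnerProductSpace.ofCore core
  obtain ⟨H, _, _, _, T, h1, h2⟩ := hilb (G := Gns φ) (LinearMap.id (R := ℂ) (M := ℤ →₀ ℂ))
    fun x => ⟨x, rfl⟩
  have h3 : ∀ m n, inner ℂ (T (single m 1)) (T (single n 1)) = φ (n - m) := fun m n =>
    (h2 _ _).trans (by change B φ (single m 1) (single n 1) = _; simp [B])
  have h4 : T = linearCombination ℂ fun n => T (single n 1) := by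
    ext
    simp
  let S := Finsupp.domLCongr (R := ℂ) (M := ℂ) (Equiv.addRight (1 : ℤ))
  have h5 : T ∘ₗ S.toLinearMap = linearCombination ℂ fun n => T (single (n + 1) 1) := by
    ext
    simp [S]
  have h6 : ∀ c, ‖T (S c)‖ = ‖T c‖ := fun c => by
    rw [DFunLike.congr_fun h4 c, L2 h3, ← L2 (φ := φ) (v := fun n => T (single (n + 1) 1))
      fun m n => by simp [h3], ← h5]
    rfl
  refine ⟨H, _, _, ‹_›, S.extendOfIsometry T T h1 h1 h6, T (single 0 1), fun m n => ?_⟩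
  have h7 := orb (S.extendOfIsometry T T h1 h1 h6) (v := fun n => T (single n 1)) fun n => by
    simp [S]
  rw [h7, h7, h3]

def D (δ : ℝ) (N : ℕ) (Q : Set ℤ) : Prop :=
  ∃ (H : Type) (_ : NormedAddCommGroup H) (_ : InnerProductSpace ℂ H) (_ : CompleteSpace H)
    (U : H ≃ₗᵢ[ℂ] H) (x : H), ‖x‖ = 1 ∧ (∀ n ∈ Q, ‖(U ^ n) x - x‖ ≤ δ) ∧
      ‖∑ i ∈ Finset.range (N + 1), (U ^ (i : ℤ)) x‖ ≤ (N + 1) / 2

theorem D_closed (δ : ℝ) (N : ℕ) : IsClosed {χ : ℤ → Bool | D δ N {n | χ n = true}} := by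
  let d : ℤ → ℤ →₀ ℂ := fun n => single n 1 - single 0 1
  let s : ℤ →₀ ℂ := ∑ i ∈ Finset.range (N + 1), single (i : ℤ) 1
  have hc : ∀ c, Continuous fun z : (ℤ → Bool) × (ℤ → ℂ) => √(B z.2 c c).re := fun c =>
    (Complex.continuous_re.comp ((B_cont c c).comp continuous_snd)).sqrt
  have h1 : IsClosed {z : (ℤ → Bool) × (ℤ → ℂ) | (∀ n, z.1 n = false ∨ √(B z.2 (d n) (d n)).re ≤ δ) ∧
      √(B z.2 s s).re ≤ (N + 1) / 2} := by
    simp only [ofPred_and, ofPred_forall]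
    exact (isClosed_iInter fun n => (isClosed_eq ((continuous_apply n).comp continuous_fst)
      continuous_const).union (isClosed_le (hc _) continuous_const)).inter
        (isClosed_le (hc _) continuous_const)
  convert (((isCompact_univ.prod P_compact).inter_right h1).image continuous_fst).isClosed using 1
  ext χ
  constructor
  · rintro ⟨H, _, _, _, U, x, h2, h3, h4⟩
    have h5 := ker U x
    refine ⟨(χ, fun n => inner ℂ x ((U ^ n) x)), ⟨⟨trivial, ⟨by simp [h2], fun c d => ?_,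
      fun c => ?_⟩, fun n _ => ?_⟩, fun n => ?_, ?_⟩, rfl⟩
    · rw [← L1 h5, ← L1 h5, inner_conj_symm]
    · rw [← L1 h5]
      exact inner_self_nonneg (𝕜 := ℂ)
    · simpa [h2] using norm_inner_le_norm (𝕜 := ℂ) x ((U ^ n) x)
    · rw [← L2 h5]
      cases h : χ n
      · exact .inl h
      · exact .inr (by simpa [d] using h3 n h)
    · rw [← L2 h5]
      simpa [s] using h4
  · rintro ⟨⟨χ, φ⟩, ⟨⟨-, h2⟩, h3, h4⟩, rfl⟩
    obtain ⟨H, _, _, _, U, x, h5⟩ := gns h2
    refine ⟨H, _, _, ‹_›, U, x, ?_, fun n hn => ?_, ?_⟩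
    · simpa [B, show φ 0 = 1 from h2.1.1] using L2 h5 (single 0 1)
    · have := (h3 n).resolve_left (by simpa using hn)
      rw [← L2 h5] at this
      simpa [d] using this
    · rw [← L2 h5] at h4
      simpa [s] using h4

theorem bdd {H : Type} [NormedAddCommGroup H] [InnerProductSpace ℂ H] (U : H ≃ₗᵢ[ℂ] H) (x : H)
    (Q : Set ℤ) : BddAbove (range fun n : Q => ‖(U ^ (n : ℤ)) x - x‖) :=
  ⟨‖x‖ + ‖x‖, forall_mem_range.2 fun n => (norm_sub_le _ _).trans_eq (by simp)⟩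

theorem of_not {Q : Set ℤ} (h : ¬ Kazhdan Q) {δ : ℝ} (hδ : 0 < δ) : ∃ N, D δ N Q := by
  unfold Kazhdan at h
  push Not at h
  obtain ⟨H, _, _, _, U, x, h1, h2, h3⟩ := h δ hδ
  have h4 := (U.toLinearIsometry.toContinuousLinearMap).tendsto_birkhoffAverage_orthogonalProjection
    U.toLinearIsometry.norm_toContinuousLinearMap_le x
  obtain ⟨y, hy, h4⟩ : ∃ y, U y = y ∧ Tendsto (birkhoffAverage ℂ U id · x) atTop (𝓝 y) :=
    ⟨_, LinearMap.mem_eqLocus.1 (SetLike.coe_mem _), h4⟩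
  obtain rfl : y = 0 := by_contra fun h0 => h3 y h0 hy
  obtain ⟨N, hN⟩ := (((tendsto_add_atTop_iff_nat 1).2 h4).norm.eventually_le_const
    (show _ < (1 / 2 : ℝ) by simp)).exists
  refine ⟨N, H, _, _, ‹_›, U, x, h1, fun n hn => ((le_ciSup (bdd U x Q) ⟨n, hn⟩).trans h2.le), ?_⟩
  have h5 : ∀ i : ℕ, (U ^ (i : ℤ)) x = U^[i] x := fun i => by
    rw [zpow_natCast]
    exact congrFun (hom_coe_pow _ rfl (fun _ _ => rfl) U i) x
  simp only [birkhoffAverage, birkhoffSum, norm_smul, norm_inv, RCLike.norm_natCast] at hN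
  rw [inv_mul_le_iff₀ (by positivity)] at hN
  simp only [h5]
  simpa [div_eq_mul_inv] using hN

theorem not_D {Q : Set ℤ} (h : Kazhdan Q) : ∃ k : ℕ, ∀ N, ¬ D (1 / (k + 1)) N Q := by
  obtain ⟨ε, hε, h⟩ := h
  obtain ⟨k, hk⟩ := exists_nat_one_div_lt (half_pos hε)
  refine ⟨k, fun N ⟨H, _, _, _, U, x, h1, h2, h3⟩ => ?_⟩
  let K := U.toLinearIsometry.toContinuousLinearMap.eqLocus (1 : H →L[ℂ] H)
  have hK : ∀ y ∈ K, U y = y := fun y hy => hy
  let V : Kᗮ ≃ₗᵢ[ℂ] Kᗮ :=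
    { toFun y := ⟨U y, fun u hu => by rw [← hK u hu, U.inner_map_map, y.2 u hu]⟩
      invFun y := ⟨U.symm y, fun u hu => by
        rw [← U.inner_map_map, hK u hu, U.apply_symm_apply, y.2 u hu]⟩
      map_add' _ _ := Subtype.ext (map_add U _ _)
      map_smul' _ _ := Subtype.ext (map_smul U _ _)
      left_inv _ := Subtype.ext (U.symm_apply_apply _)
      right_inv _ := Subtype.ext (U.apply_symm_apply _)
      norm_map' _ := U.norm_map _ }
  have hV : ∀ (n : ℤ) (y : Kᗮ), ((V ^ n) y : H) = (U ^ n) y := fun n y =>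
    (orb U (v := fun n => ((V ^ n) y : H)) (fun n => by rw [add_comm, zpow_one_add]; rfl) n).symm
  obtain ⟨y, hy, z, hz, rfl⟩ := K.exists_add_mem_mem_orthogonal x
  have h4 : ∀ n : ℤ, (U ^ n) y = y := orb U (v := fun _ => y) fun _ => hK y hy
  have h5 : ‖y‖ ≤ 1 / 2 := by
    have h6 := (norm_inner_le_norm (𝕜 := ℂ) y _).trans (mul_le_mul_of_nonneg_left h3 (norm_nonneg _))
    have h7 : ∀ i : ℤ, inner ℂ y ((U ^ i) (y + z)) = (‖y‖ ^ 2 : ℝ) := fun i => by
      rw [map_add, h4, inner_add_right, ← hV i ⟨z, hz⟩, ((V ^ i) ⟨z, hz⟩).2 y hy]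
      simp
    simp only [inner_sum, h7, Finset.sum_const, Finset.card_range, nsmul_eq_mul, norm_mul,
      Complex.norm_natCast, Complex.norm_real, norm_pow, norm_norm] at h6
    push_cast at h6
    by_contra h8
    have : (0 : ℝ) < (N + 1) * ‖y‖ * (‖y‖ - 1 / 2) := by
      have := sub_pos.2 (not_le.1 h8)
      have : 0 < ‖y‖ := by linarith
      positivity
    linarith
  have h6 : 1 / 2 ≤ ‖z‖ := by linarith [norm_add_le y z]
  have h0 : 0 < ‖z‖ := by linarith
  obtain ⟨w, w0, hw⟩ := h Kᗮ V ((‖z‖⁻¹ : ℂ) • ⟨z, hz⟩) (by simp [norm_smul, h0.ne'])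
    ((Real.iSup_le (a := 2 * (1 / (k + 1))) (fun n => by
      have h7 := h2 n n.2
      rw [map_add, h4, add_sub_add_left_eq_sub] at h7
      rw [map_smul, ← smul_sub, norm_smul]
      change _ * ‖((V ^ (n : ℤ)) ⟨z, hz⟩ : H) - z‖ ≤ _
      rw [hV]
      refine mul_le_mul ?_ h7 (norm_nonneg _) zero_le_two
      rw [norm_inv, inv_le_comm₀ (by simpa using h0) two_pos]
      simpa using h6) (by positivity)).trans_lt (by linarith))
  exact w0 (Subtype.ext (inner_self_eq_zero.1 (w.2 w (congrArg Subtype.val hw))))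

theorem result : @MeasurableSet _ (borel (ℤ → Bool)) {χ | Kazhdan {n | χ n = true}} ∧
    @MeasurableSet _ (borel (ℤ → Bool))
      {χ | AddSubgroup.closure {n | χ n = true} = ⊤ ∧ ¬ Kazhdan {n | χ n = true}} := by
  rw [← BorelSpace.measurable_eq]
  have h1 : MeasurableSet {χ : ℤ → Bool | Kazhdan {n | χ n = true}} := by
    convert MeasurableSet.iUnion fun k : ℕ => MeasurableSet.iInter fun N =>
      (D_closed (1 / (k + 1)) N).measurableSet.compl using 1
    ext χ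
    simp only [mem_iUnion, mem_iInter]
    refine ⟨not_D, fun ⟨k, hk⟩ => by_contra fun h => ?_⟩
    obtain ⟨N, hN⟩ := of_not h (Nat.one_div_pos_of_nat (n := k))
    exact hk N hN
  refine ⟨h1, MeasurableSet.inter (s₁ := {χ : ℤ → Bool | AddSubgroup.closure {n | χ n = true} = ⊤})
    ?_ h1.compl⟩
  convert MeasurableSet.iUnion fun F : {F : Finset ℤ // (1 : ℤ) ∈ Submodule.span ℤ (F : Set ℤ)} =>
    MeasurableSet.biInter F.1.countable_toSet fun n _ =>
      measurable_pi_apply (X := fun _ : ℤ => Bool) n (measurableSet_singleton true) using 1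
  ext χ
  simp only [mem_iUnion, mem_iInter, mem_ofPred_eq, ← Submodule.span_int_eq_addSubgroupClosure,
    Submodule.toAddSubgroup_eq_top, Ideal.eq_top_iff_one]
  exact ⟨fun h => (Submodule.mem_span_finite_of_mem_span h).elim fun F hF => ⟨⟨F, hF.2⟩, hF.1⟩,
    fun ⟨F, hF⟩ => Submodule.span_mono hF F.2⟩

end Pool.Agent.Results.MP_6f1842_lc.Borel
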